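import Pool.Agent.TH498.KB.Appl

/-!
# From an abc inequality with exponent `λ < 6/5` to the modified Szpiro inequality
-/

set_option autoImplicit false

namespace Pool.Agent.Q272.TR

open Finset
open Pool.Agent.H39R3 (GMin condW)
open Pool.Agent.TH498.KB (prim_of_gmin)

/-- the product of the primes dividing `n` -/
def rad (n : ℕ) : ℕ := ∏ p ∈ n.primeFactors, p

theorem rad_pos (n : ℕ) : 0 < rad n :=
  prod_pos fun _ hp => (Nat.prime_of_mem_primeFactors hp).pos

theorem rad_fact (n p : ℕ) (hp : p.Prime) (hn : n ≠ 0) :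
    (rad n).factorization p ≤ if p ∣ n then 1 else 0 := by
  have h1 : (rad n).factorization p = ∑ q ∈ n.primeFactors, q.factorization p := by
    unfold rad
    rw [Nat.factorization_prod (fun q hq => (Nat.prime_of_mem_primeFactors hq).ne_zero)]
    simp
  rw [h1]
  have h2 : ∀ q ∈ n.primeFactors, q.factorization p = if q = p then 1 else 0 := by
    intro q hq
    have hq' := Nat.prime_of_mem_primeFactors hq
    rw [hq'.factorization]
    simp [Finsupp.single_apply]
  rw [sum_congr rfl h2, sum_ite_eq']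
  by_cases h : p ∣ n
  · rw [if_pos h]
    split_ifs <;> omega
  · rw [if_neg h, if_neg]
    intro hmem
    exact h (Nat.dvd_of_mem_primeFactors hmem)

theorem condW_pos (W : WeierstrassCurve ℤ) : 0 < condW W := by
  unfold condW
  refine prod_pos fun p hp => ?_
  have h := (Nat.prime_of_mem_primeFactors (mem_filter.mp hp).1).pos
  split_ifs <;> positivity

theorem condW_one (W : WeierstrassCurve ℤ) (hΔ : W.Δ ≠ 0) {p : ℕ} (hp : p.Prime) (h5 : 5 ≤ p)
    (hd : (p : ℤ) ∣ W.Δ) : 1 ≤ (condW W).factorization p := by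
  have hmem : p ∈ W.Δ.natAbs.primeFactors.filter (fun p => 5 ≤ p) :=
    mem_filter.mpr ⟨Nat.mem_primeFactors.mpr ⟨hp, Int.natCast_dvd.mp hd,
      Int.natAbs_ne_zero.mpr hΔ⟩, h5⟩
  have h1 : p ∣ condW W := by
    refine dvd_trans ?_ (dvd_prod_of_mem _ hmem)
    split_ifs
    · exact dvd_pow_self _ (by norm_num)
    · exact dvd_rfl
  exact (hp.dvd_iff_one_le_factorization (condW_pos W).ne').mp h1

theorem condW_two (W : WeierstrassCurve ℤ) (hΔ : W.Δ ≠ 0) {p : ℕ} (hp : p.Prime) (h5 : 5 ≤ p)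
    (hd : (p : ℤ) ∣ W.Δ) (h4 : (p : ℤ) ∣ W.c₄) : 2 ≤ (condW W).factorization p := by
  have hmem : p ∈ W.Δ.natAbs.primeFactors.filter (fun p => 5 ≤ p) :=
    mem_filter.mpr ⟨Nat.mem_primeFactors.mpr ⟨hp, Int.natCast_dvd.mp hd,
      Int.natAbs_ne_zero.mpr hΔ⟩, h5⟩
  have h1 : p ^ 2 ∣ condW W := by
    refine dvd_trans ?_ (dvd_prod_of_mem _ hmem)
    rw [if_pos h4]
  exact (hp.pow_dvd_iff_le_factorization (condW_pos W).ne').mp h1

/-- a global minimal equation is primitive at `p`, up to a bounded power -/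
theorem prim_pow (W : WeierstrassCurve ℤ) (hW : GMin W) {p j : ℕ} (hj : 7 ≤ p ^ j) :
    ¬ (((p ^ (4 * j) : ℕ) : ℤ) ∣ W.c₄ ∧ ((p ^ (6 * j) : ℕ) : ℤ) ∣ W.c₆) := by
  rintro ⟨h4, h6⟩
  have h := prim_of_gmin W hW ((p ^ j : ℕ) : ℤ) (by
    have : (((p ^ j : ℕ) : ℤ)) ^ 4 = ((p ^ (4 * j) : ℕ) : ℤ) := by
      push_cast; rw [← pow_mul]; congr 1; ring
    rw [this]; exact Dvd.dvd.mul_left h4 _) (by
    have : (((p ^ j : ℕ) : ℤ)) ^ 6 = ((p ^ (6 * j) : ℕ) : ℤ) := by
      push_cast; rw [← pow_mul]; congr 1; ring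
    rw [this]; exact Dvd.dvd.mul_left h6 _)
  rw [Nat.abs_cast] at h
  have h' : p ^ j ≤ 6 := by exact_mod_cast h
  omega

/-- the valuations of `c₄` and `c₆` -/
theorem val_lt (W : WeierstrassCurve ℤ) (hW : GMin W) {p j : ℕ} (hp : p.Prime) (hj : 7 ≤ p ^ j) :
    (W.c₄ ≠ 0 ∧ W.c₄.natAbs.factorization p < 4 * j) ∨
      (W.c₆ ≠ 0 ∧ W.c₆.natAbs.factorization p < 6 * j) := by
  by_contra hcon
  push Not at hcon
  apply prim_pow W hW hj
  constructor
  · by_cases h0 : W.c₄ = 0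
    · rw [h0]; exact dvd_zero _
    · rw [Int.natCast_dvd]
      exact (hp.pow_dvd_iff_le_factorization (Int.natAbs_ne_zero.mpr h0)).mpr (hcon.1 h0)
  · by_cases h0 : W.c₆ = 0
    · rw [h0]; exact dvd_zero _
    · rw [Int.natCast_dvd]
      exact (hp.pow_dvd_iff_le_factorization (Int.natAbs_ne_zero.mpr h0)).mpr (hcon.2 h0)

/-- small primes and large primes -/
theorem prime_cases {p : ℕ} (hp : p.Prime) :
    (7 ≤ p ∧ 7 ≤ p ^ 1) ∨ (p ∣ 30 ∧ 7 ≤ p ^ 3) := by
  rcases Nat.lt_or_ge p 7 with h | h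
  · right
    have h2 := hp.two_le
    interval_cases p
    · norm_num
    · norm_num
    · norm_num at hp
    · norm_num
    · norm_num at hp
  · left
    exact ⟨h, by simpa using h⟩

theorem fact30 {p : ℕ} (hp : p.Prime) (h : p ∣ 30) : 42 ≤ (30 ^ 42).factorization p := by
  rw [Nat.factorization_pow]
  have : 1 ≤ (30 : ℕ).factorization p :=
    (hp.dvd_iff_one_le_factorization (by norm_num)).mp h
  simp only [Finsupp.smul_apply, smul_eq_mul]
  omega

/-- the key divisibility -/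
theorem key_dvd (W : WeierstrassCurve ℤ) (hW : GMin W) (h4 : W.c₄ ≠ 0) (h6 : W.c₆ ≠ 0)
    {g X Y Z : ℕ} (hg : g ≠ 0) (hX0 : X ≠ 0) (hY0 : Y ≠ 0) (hZ0 : Z ≠ 0)
    (hX : W.c₄.natAbs ^ 3 = g * X) (hY : W.c₆.natAbs ^ 2 = g * Y)
    (hZ : (1728 * W.Δ).natAbs = g * Z) (hco : Nat.Coprime X Y) :
    rad (X * Y * Z) ^ 6 * g ∣ 30 ^ 42 * X ^ 2 * Y ^ 3 * condW W ^ 6 := by
  have hN := (condW_pos W).ne'
  have hXYZ : X * Y * Z ≠ 0 := mul_ne_zero (mul_ne_zero hX0 hY0) hZ0
  have hrad := (rad_pos (X * Y * Z)).ne'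
  rw [← Nat.factorization_prime_le_iff_dvd (mul_ne_zero (pow_ne_zero _ hrad) hg)
    (mul_ne_zero (mul_ne_zero (mul_ne_zero (by norm_num) (pow_ne_zero _ hX0))
      (pow_ne_zero _ hY0)) (pow_ne_zero _ hN))]
  intro p hp
  rw [Nat.factorization_mul (pow_ne_zero _ hrad) hg, Nat.factorization_mul
    (mul_ne_zero (mul_ne_zero (by norm_num) (pow_ne_zero _ hX0)) (pow_ne_zero _ hY0))
    (pow_ne_zero _ hN), Nat.factorization_mul (mul_ne_zero (by norm_num) (pow_ne_zero _ hX0))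
    (pow_ne_zero _ hY0), Nat.factorization_mul (by norm_num) (pow_ne_zero _ hX0),
    Nat.factorization_pow, Nat.factorization_pow, Nat.factorization_pow, Nat.factorization_pow,
    Nat.factorization_pow]
  simp only [Finsupp.add_apply, Finsupp.smul_apply, smul_eq_mul]
  have e4 : 3 * W.c₄.natAbs.factorization p = g.factorization p + X.factorization p := by
    have := congrArg (fun n : ℕ => n.factorization p) hX
    simpa [Nat.factorization_pow, Nat.factorization_mul hg hX0] using this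
  have e6 : 2 * W.c₆.natAbs.factorization p = g.factorization p + Y.factorization p := by
    have := congrArg (fun n : ℕ => n.factorization p) hY
    simpa [Nat.factorization_pow, Nat.factorization_mul hg hY0] using this
  have hmin : X.factorization p = 0 ∨ Y.factorization p = 0 := by
    by_contra hcon
    push Not at hcon
    have h1 : p ∣ X := (hp.dvd_iff_one_le_factorization hX0).mpr (by omega)
    have h2 : p ∣ Y := (hp.dvd_iff_one_le_factorization hY0).mpr (by omega)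
    exact hp.one_lt.ne' (Nat.dvd_one.mp (hco ▸ Nat.dvd_gcd h1 h2))
  have hr := rad_fact (X * Y * Z) p hp hXYZ
  set α := W.c₄.natAbs.factorization p with hα
  set β := W.c₆.natAbs.factorization p with hβ
  set γ := g.factorization p with hγ
  set ξ := X.factorization p with hξ
  set η := Y.factorization p with hη
  set ρ := (rad (X * Y * Z)).factorization p with hρ
  rcases prime_cases hp with ⟨h7, h71⟩ | ⟨h30, h73⟩
  · have hv := val_lt W hW hp h71
    rw [← hα, ← hβ] at hv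
    by_cases hΔ : (p : ℤ) ∣ W.Δ
    · by_cases hc : (p : ℤ) ∣ W.c₄
      · have hN2 := condW_two W hW.1 hp (by omega) hΔ hc
        have hρ1 : ρ ≤ 1 := by
          refine hr.trans ?_
          split_ifs <;> omega
        have hα1 : 1 ≤ α := (hp.dvd_iff_one_le_factorization (Int.natAbs_ne_zero.mpr h4)).mp
          (Int.natCast_dvd.mp hc)
        have hc6 : (p : ℤ) ∣ W.c₆ := by
          have h8 : W.c₆ ^ 2 = W.c₄ ^ 3 - 1728 * W.Δ := by
            have := W.c_relation
            linarith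
          refine (Nat.prime_iff_prime_int.mp hp).dvd_of_dvd_pow (n := 2) ?_
          rw [h8]
          exact dvd_sub (dvd_pow hc (by norm_num)) (Dvd.dvd.mul_left hΔ _)
        have hβ1 : 1 ≤ β := (hp.dvd_iff_one_le_factorization (Int.natAbs_ne_zero.mpr h6)).mp
          (Int.natCast_dvd.mp hc6)
        omega
      · have hN1 := condW_one W hW.1 hp (by omega) hΔ
        have hρ1 : ρ ≤ 1 := by
          refine hr.trans ?_
          split_ifs <;> omega
        have hα0 : α = 0 := by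
          by_contra h
          exact hc (Int.natCast_dvd.mpr ((hp.dvd_iff_one_le_factorization
            (Int.natAbs_ne_zero.mpr h4)).mpr (by omega)))
        omega
    · have hZp : ¬ p ∣ (1728 * W.Δ).natAbs := by
        intro h
        have h1 : (p : ℤ) ∣ 1728 * W.Δ := Int.natCast_dvd.mpr h
        rcases (Nat.prime_iff_prime_int.mp hp).dvd_or_dvd h1 with h2 | h2
        · have h3 : p ∣ 1728 := by exact_mod_cast h2
          have h4 : p ∣ 2 ^ 6 * 3 ^ 3 := by norm_num; exact h3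
          rcases hp.dvd_mul.mp h4 with h5 | h5
          · have := Nat.le_of_dvd (by norm_num) (hp.dvd_of_dvd_pow h5)
            omega
          · have := Nat.le_of_dvd (by norm_num) (hp.dvd_of_dvd_pow h5)
            omega
        · exact hΔ h2
      have hγ0 : γ = 0 := by
        by_contra h
        have h1 : p ∣ g := (hp.dvd_iff_one_le_factorization hg).mpr (by omega)
        exact hZp (hZ ▸ Dvd.dvd.mul_right h1 _)
      have hZ' : ¬ p ∣ Z := fun h => hZp (hZ ▸ Dvd.dvd.mul_left h _)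
      by_cases hd : p ∣ X * Y * Z
      · rw [if_pos hd] at hr
        have h1 : p ∣ X * Y := (hp.dvd_mul.mp hd).resolve_right hZ'
        rcases hp.dvd_mul.mp h1 with h2 | h2
        · have h3 : 1 ≤ ξ := (hp.dvd_iff_one_le_factorization hX0).mp h2
          omega
        · have h3 : 1 ≤ η := (hp.dvd_iff_one_le_factorization hY0).mp h2
          omega
      · rw [if_neg hd] at hr
        omega
  · have hv := val_lt W hW hp h73
    rw [← hα, ← hβ] at hv
    have h42 := fact30 hp h30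
    rw [Nat.factorization_pow] at h42
    simp only [Finsupp.smul_apply, smul_eq_mul] at h42
    have hρ1 : ρ ≤ 1 := by
      refine hr.trans ?_
      split_ifs <;> omega
    omega

/-- the curves with `c₄ = 0` or `c₆ = 0` -/
theorem cm_dvd (W : WeierstrassCurve ℤ) (hW : GMin W) :
    (W.c₄ = 0 → W.c₆.natAbs ^ 2 ∣ 30 ^ 42 * condW W ^ 5) ∧
      (W.c₆ = 0 → W.c₄.natAbs ^ 3 ∣ 30 ^ 42 * condW W ^ 5) := by
  have hN := (condW_pos W).ne'
  have hrel := W.c_relation
  have h1728 : ∀ p : ℕ, p.Prime → 7 ≤ p → (p : ℤ) ∣ 1728 * W.Δ → (p : ℤ) ∣ W.Δ := by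
    intro p hp h7 h1
    rcases (Nat.prime_iff_prime_int.mp hp).dvd_or_dvd h1 with h2 | h2
    · have h3 : p ∣ 1728 := by exact_mod_cast h2
      have h4 : p ∣ 2 ^ 6 * 3 ^ 3 := by norm_num; exact h3
      rcases hp.dvd_mul.mp h4 with h5 | h5
      · have := Nat.le_of_dvd (by norm_num) (hp.dvd_of_dvd_pow h5)
        omega
      · have := Nat.le_of_dvd (by norm_num) (hp.dvd_of_dvd_pow h5)
        omega
    · exact h2
  constructor
  · intro h0
    have h6 : W.c₆ ≠ 0 := by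
      intro h
      rw [h0, h] at hrel
      apply hW.1
      omega
    rw [← Nat.factorization_prime_le_iff_dvd (pow_ne_zero _ (Int.natAbs_ne_zero.mpr h6))
      (mul_ne_zero (by norm_num) (pow_ne_zero _ hN))]
    intro p hp
    rw [Nat.factorization_mul (by norm_num) (pow_ne_zero _ hN), Nat.factorization_pow,
      Nat.factorization_pow, Nat.factorization_pow]
    simp only [Finsupp.add_apply, Finsupp.smul_apply, smul_eq_mul]
    rcases prime_cases hp with ⟨h7, h71⟩ | ⟨h30, h73⟩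
    · rcases val_lt W hW hp h71 with ⟨h, -⟩ | ⟨-, hv⟩
      · exact absurd h0 h
      rcases Nat.eq_zero_or_pos (W.c₆.natAbs.factorization p) with hb | hb
      · rw [hb]; omega
      · have h1 : (p : ℤ) ∣ W.c₆ := Int.natCast_dvd.mpr
          ((hp.dvd_iff_one_le_factorization (Int.natAbs_ne_zero.mpr h6)).mpr hb)
        have h2 : (p : ℤ) ∣ W.Δ := h1728 p hp h7 (by
          rw [hrel, h0]
          exact dvd_sub (by simp) (dvd_pow h1 (by norm_num)))
        have h3 := condW_two W hW.1 hp (by omega) h2 (by rw [h0]; exact dvd_zero _)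
        omega
    · rcases val_lt W hW hp h73 with ⟨h, -⟩ | ⟨-, hv⟩
      · exact absurd h0 h
      have h42 := fact30 hp h30
      rw [Nat.factorization_pow] at h42
      simp only [Finsupp.smul_apply, smul_eq_mul] at h42
      omega
  · intro h0
    have h4 : W.c₄ ≠ 0 := by
      intro h
      rw [h0, h] at hrel
      apply hW.1
      omega
    rw [← Nat.factorization_prime_le_iff_dvd (pow_ne_zero _ (Int.natAbs_ne_zero.mpr h4))
      (mul_ne_zero (by norm_num) (pow_ne_zero _ hN))]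
    intro p hp
    rw [Nat.factorization_mul (by norm_num) (pow_ne_zero _ hN), Nat.factorization_pow,
      Nat.factorization_pow, Nat.factorization_pow]
    simp only [Finsupp.add_apply, Finsupp.smul_apply, smul_eq_mul]
    rcases prime_cases hp with ⟨h7, h71⟩ | ⟨h30, h73⟩
    · rcases val_lt W hW hp h71 with ⟨-, hv⟩ | ⟨h, -⟩
      · rcases Nat.eq_zero_or_pos (W.c₄.natAbs.factorization p) with hb | hb
        · rw [hb]; omega
        · have h1 : (p : ℤ) ∣ W.c₄ := Int.natCast_dvd.mpr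
            ((hp.dvd_iff_one_le_factorization (Int.natAbs_ne_zero.mpr h4)).mpr hb)
          have h2 : (p : ℤ) ∣ W.Δ := h1728 p hp h7 (by
            rw [hrel, h0]
            exact dvd_sub (dvd_pow h1 (by norm_num)) (by simp))
          have h3 := condW_two W hW.1 hp (by omega) h2 h1
          omega
      · exact absurd h0 h
    · rcases val_lt W hW hp h73 with ⟨-, hv⟩ | ⟨h, -⟩
      · have h42 := fact30 hp h30
        rw [Nat.factorization_pow] at h42
        simp only [Finsupp.smul_apply, smul_eq_mul] at h42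
        omega
      · exact absurd h0 h

/-- the abc inequality with exponent `l` -/
def AbcExp (l : ℝ) : Prop :=
  ∃ C : ℝ, ∀ a b c : ℕ, 0 < a → 0 < b → a + b = c → Nat.Coprime a b →
    (c : ℝ) ≤ C * (rad (a * b * c) : ℝ) ^ l

/-- the height -/
noncomputable def ht (W : WeierstrassCurve ℤ) : ℝ :=
  max (|(W.c₄ : ℝ)| ^ 3) ((W.c₆ : ℝ) ^ 2)

/-- the modified Szpiro inequality with exponent `κ` for the curves with the property `P` -/
def SzExp (P : WeierstrassCurve ℤ → Prop) (κ : ℝ) : Prop :=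
  ∃ C : ℝ, ∀ W : WeierstrassCurve ℤ, GMin W → P W → ht W ≤ C * (condW W : ℝ) ^ κ

theorem abc_apply {l C : ℝ} (h : ∀ a b c : ℕ, 0 < a → 0 < b → a + b = c → Nat.Coprime a b →
    (c : ℝ) ≤ C * (rad (a * b * c) : ℝ) ^ l) (W : WeierstrassCurve ℤ)
    {g X Y Z : ℕ} (hg : g ≠ 0) (hX0 : X ≠ 0) (hY0 : Y ≠ 0) (hZ0 : Z ≠ 0)
    (hX : W.c₄.natAbs ^ 3 = g * X) (hY : W.c₆.natAbs ^ 2 = g * Y)
    (hZ : (1728 * W.Δ).natAbs = g * Z) (hco : Nat.Coprime X Y) :
    ∃ M : ℕ, 1 ≤ M ∧ X ≤ M ∧ Y ≤ M ∧ (M : ℝ) ≤ C * (rad (X * Y * Z) : ℝ) ^ l := by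
  have hrel := W.c_relation
  have hY2 : W.c₆ ^ 2 = (g : ℤ) * Y := by
    have : ((W.c₆.natAbs ^ 2 : ℕ) : ℤ) = ((g * Y : ℕ) : ℤ) := by rw [hY]
    push_cast at this
    rw [sq_abs] at this
    exact this
  have hX3 : |W.c₄| ^ 3 = (g : ℤ) * X := by
    have : ((W.c₄.natAbs ^ 3 : ℕ) : ℤ) = ((g * X : ℕ) : ℤ) := by rw [hX]
    push_cast at this
    exact this
  have hZ3 : |1728 * W.Δ| = (g : ℤ) * Z := by
    have : (((1728 * W.Δ).natAbs : ℕ) : ℤ) = ((g * Z : ℕ) : ℤ) := by rw [hZ]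
    push_cast at this
    exact this
  have hgZ : (g : ℤ) ≠ 0 := by exact_mod_cast hg
  have hXp := Nat.pos_of_ne_zero hX0
  have hYp := Nat.pos_of_ne_zero hY0
  have hZp := Nat.pos_of_ne_zero hZ0
  rcases le_total 0 W.c₄ with hs | hs
  · rw [abs_of_nonneg hs] at hX3
    rcases le_total 0 (1728 * W.Δ) with ht | ht
    · rw [abs_of_nonneg ht] at hZ3
      have h1 : (g : ℤ) * (Y + Z) = g * X := by
        linear_combination (-hY2) - hZ3 + hX3 + hrel
      have h2 : Y + Z = X := by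
        have := mul_left_cancel₀ hgZ h1
        exact_mod_cast this
      refine ⟨X, hXp, le_rfl, by omega, ?_⟩
      have h3 := h Y Z X hYp hZp h2 (by
        rw [← h2] at hco
        exact (Nat.coprime_add_self_left.mp (by rwa [Nat.add_comm] at hco)).symm)
      have h4 : Y * Z * X = X * Y * Z := by ring
      rwa [h4] at h3
    · rw [abs_of_nonpos ht] at hZ3
      have h1 : (g : ℤ) * (X + Z) = g * Y := by
        linear_combination (-hX3) - hZ3 + hY2 - hrel
      have h2 : X + Z = Y := by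
        have := mul_left_cancel₀ hgZ h1
        exact_mod_cast this
      refine ⟨Y, hYp, by omega, le_rfl, ?_⟩
      have h3 := h X Z Y hXp hZp h2 (by
        rw [← h2] at hco
        simpa using hco)
      have h4 : X * Z * Y = X * Y * Z := by ring
      rwa [h4] at h3
  · rw [abs_of_nonpos hs] at hX3
    have ht : 1728 * W.Δ ≤ 0 := by
      rw [hrel]
      have h1 : W.c₄ ^ 3 ≤ 0 := by
        have : 0 ≤ (-W.c₄) ^ 3 := pow_nonneg (by linarith) 3
        nlinarith
      nlinarith [sq_nonneg W.c₆]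
    rw [abs_of_nonpos ht] at hZ3
    have h1 : (g : ℤ) * (X + Y) = g * Z := by
      linear_combination (-hX3) + hZ3 - hY2 + hrel
    have h2 : X + Y = Z := by
      have := mul_left_cancel₀ hgZ h1
      exact_mod_cast this
    exact ⟨Z, hZp, by omega, by omega, h X Y Z hXp hYp h2 hco⟩

/-- **An abc inequality with exponent `l < 6/5` implies the modified Szpiro inequality with exponent
`6 l / (6 - 5 l)`.** -/
theorem sz_of_abc {l : ℝ} (h1 : 1 ≤ l) (h2 : l < 6 / 5) (h : AbcExp l) :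
    SzExp (fun _ => True) (6 * l / (6 - 5 * l)) := by
  obtain ⟨C, hC⟩ := h
  have hs : 0 < 6 - 5 * l := by linarith
  set s := 6 - 5 * l with hsdef
  have hC0 : 0 < C := by
    have h3 := hC 1 1 2 one_pos one_pos rfl (Nat.coprime_one_left 1)
    have h4 : 0 < (rad (1 * 1 * 2) : ℝ) ^ l := Real.rpow_pos_of_pos (by exact_mod_cast rad_pos _) _
    by_contra hcon
    push Not at hcon
    have : C * (rad (1 * 1 * 2) : ℝ) ^ l ≤ 0 := mul_nonpos_of_nonpos_of_nonneg hcon h4.le
    norm_num at h3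
    linarith
  set K : ℝ := (30 : ℝ) ^ 42 with hK
  have hK1 : 1 ≤ K := by rw [hK]; norm_num
  set B : ℝ := (C ^ 6 * K ^ l) ^ (1 / s) with hB
  have hB0 : 0 ≤ B := by positivity
  have hκ : 5 ≤ 6 * l / s := by
    rw [le_div_iff₀ hs]
    linarith
  refine ⟨B + K, fun W hW _ => ?_⟩
  have hN1 : (1 : ℝ) ≤ condW W := by exact_mod_cast condW_pos W
  have hN0 : (0 : ℝ) < condW W := by linarith
  have hcm : ∀ n : ℕ, n ∣ 30 ^ 42 * condW W ^ 5 → (n : ℝ) ≤ (B + K) * (condW W : ℝ) ^ (6 * l / s) := by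
    intro n hn
    have h3 : n ≤ 30 ^ 42 * condW W ^ 5 :=
      Nat.le_of_dvd (mul_pos (by norm_num) (pow_pos (condW_pos W) _)) hn
    calc (n : ℝ) ≤ ((30 ^ 42 * condW W ^ 5 : ℕ) : ℝ) := by exact_mod_cast h3
      _ = K * (condW W : ℝ) ^ (5 : ℝ) := by
          rw [hK]
          push_cast
          rw [← Real.rpow_natCast]
          norm_num
      _ ≤ K * (condW W : ℝ) ^ (6 * l / s) := by
          gcongr
      _ ≤ (B + K) * (condW W : ℝ) ^ (6 * l / s) := by
          gcongr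
          linarith
  obtain ⟨hcm4, hcm6⟩ := cm_dvd W hW
  by_cases h4 : W.c₄ = 0
  · have h5 := hcm _ (hcm4 h4)
    unfold ht
    rw [h4, Int.cast_zero, abs_zero, zero_pow (by norm_num), max_eq_right (sq_nonneg _)]
    have e : ((W.c₆.natAbs ^ 2 : ℕ) : ℝ) = (W.c₆ : ℝ) ^ 2 := by
      rw [Nat.cast_pow, Nat.cast_natAbs, Int.cast_abs, sq_abs]
    rwa [e] at h5
  by_cases h6 : W.c₆ = 0
  · have h5 := hcm _ (hcm6 h6)
    unfold ht
    rw [h6, Int.cast_zero, zero_pow (by norm_num), max_eq_left (by positivity)]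
    have e : ((W.c₄.natAbs ^ 3 : ℕ) : ℝ) = |(W.c₄ : ℝ)| ^ 3 := by
      rw [Nat.cast_pow, Nat.cast_natAbs, Int.cast_abs]
    rwa [e] at h5
  -- the general case
  set g := Nat.gcd (W.c₄.natAbs ^ 3) (W.c₆.natAbs ^ 2) with hg
  have hg0 : 0 < g := Nat.gcd_pos_of_pos_left _ (pow_pos (Int.natAbs_pos.mpr h4) _)
  obtain ⟨X, hX⟩ : g ∣ W.c₄.natAbs ^ 3 := Nat.gcd_dvd_left _ _
  obtain ⟨Y, hY⟩ : g ∣ W.c₆.natAbs ^ 2 := Nat.gcd_dvd_right _ _
  have hgZ : g ∣ (1728 * W.Δ).natAbs := by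
    rw [← Int.natCast_dvd, W.c_relation]
    refine dvd_sub ?_ ?_
    · rw [Int.natCast_dvd, Int.natAbs_pow]
      exact Nat.gcd_dvd_left _ _
    · rw [Int.natCast_dvd, Int.natAbs_pow]
      exact Nat.gcd_dvd_right _ _
  obtain ⟨Z, hZ⟩ := hgZ
  have hX0 : X ≠ 0 := by
    rintro rfl
    rw [mul_zero] at hX
    exact pow_ne_zero _ (Int.natAbs_ne_zero.mpr h4) hX
  have hY0 : Y ≠ 0 := by
    rintro rfl
    rw [mul_zero] at hY
    exact pow_ne_zero _ (Int.natAbs_ne_zero.mpr h6) hY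
  have hZ0 : Z ≠ 0 := by
    rintro rfl
    rw [mul_zero] at hZ
    exact Int.natAbs_ne_zero.mpr (mul_ne_zero (by norm_num) hW.1) hZ
  have hco : Nat.Coprime X Y := by
    have e1 : g * Nat.gcd X Y = g * 1 := by
      rw [← Nat.gcd_mul_left, ← hX, ← hY, mul_one]
    exact Nat.eq_of_mul_eq_mul_left hg0 e1
  have hkey := key_dvd W hW h4 h6 hg0.ne' hX0 hY0 hZ0 hX hY hZ hco
  obtain ⟨M, hM1, hXM, hYM, hM⟩ := abc_apply hC W hg0.ne' hX0 hY0 hZ0 hX hY hZ hco
  have hM1R : (1 : ℝ) ≤ M := by exact_mod_cast hM1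
  have hM0R : (0 : ℝ) < M := by linarith
  have hg1R : (1 : ℝ) ≤ g := by exact_mod_cast hg0
  have hg0R : (0 : ℝ) < g := by linarith
  set r := rad (X * Y * Z) with hr
  have hr0 : (0 : ℝ) < r := by exact_mod_cast rad_pos _
  have hk1 : (r : ℝ) ^ 6 * g ≤ K * (M : ℝ) ^ 5 * (condW W : ℝ) ^ 6 := by
    have h3 : r ^ 6 * g ≤ 30 ^ 42 * X ^ 2 * Y ^ 3 * condW W ^ 6 :=
      Nat.le_of_dvd (by
        have := condW_pos W
        have := Nat.pos_of_ne_zero hX0
        have := Nat.pos_of_ne_zero hY0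
        positivity) hkey
    have h4 : 30 ^ 42 * X ^ 2 * Y ^ 3 * condW W ^ 6 ≤ 30 ^ 42 * M ^ 2 * M ^ 3 * condW W ^ 6 := by
      gcongr
    have h5 : ((r ^ 6 * g : ℕ) : ℝ) ≤ ((30 ^ 42 * M ^ 2 * M ^ 3 * condW W ^ 6 : ℕ) : ℝ) := by
      exact_mod_cast h3.trans h4
    push_cast at h5
    rw [hK]
    calc (r : ℝ) ^ 6 * g ≤ _ := h5
      _ = _ := by ring
  have hk2 : (M : ℝ) ^ (6 : ℝ) * (g : ℝ) ^ l ≤
      C ^ 6 * (K ^ l * (M : ℝ) ^ (5 * l) * (condW W : ℝ) ^ (6 * l)) := by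
    have e1 : (M : ℝ) ^ (6 : ℝ) ≤ C ^ 6 * ((r : ℝ) ^ 6) ^ l := by
      have e2 : (M : ℝ) ^ (6 : ℝ) = (M : ℝ) ^ 6 := by
        rw [← Real.rpow_natCast]; norm_num
      have e3 : ((r : ℝ) ^ 6) ^ l = ((r : ℝ) ^ l) ^ 6 := by
        rw [← Real.rpow_natCast, ← Real.rpow_natCast, ← Real.rpow_mul hr0.le,
          ← Real.rpow_mul hr0.le, mul_comm]
      rw [e2, e3, ← mul_pow]
      exact pow_le_pow_left₀ hM0R.le hM 6
    calc (M : ℝ) ^ (6 : ℝ) * (g : ℝ) ^ l ≤ C ^ 6 * ((r : ℝ) ^ 6) ^ l * (g : ℝ) ^ l := by gcongr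
      _ = C ^ 6 * ((r : ℝ) ^ 6 * g) ^ l := by
          rw [Real.mul_rpow (by positivity) hg0R.le]; ring
      _ ≤ C ^ 6 * (K * (M : ℝ) ^ 5 * (condW W : ℝ) ^ 6) ^ l := by gcongr
      _ = _ := by
          rw [Real.mul_rpow (by positivity) (by positivity), Real.mul_rpow (by positivity)
            (by positivity)]
          have e5 : ((M : ℝ) ^ 5) ^ l = (M : ℝ) ^ (5 * l) := by
            rw [← Real.rpow_natCast, ← Real.rpow_mul hM0R.le]; norm_num
          have e6 : ((condW W : ℝ) ^ 6) ^ l = (condW W : ℝ) ^ (6 * l) := by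
            rw [← Real.rpow_natCast, ← Real.rpow_mul hN0.le]; norm_num
          rw [e5, e6]
  have hk3 : ((g : ℝ) * M) ^ s ≤ C ^ 6 * K ^ l * (condW W : ℝ) ^ (6 * l) := by
    have e1 : (M : ℝ) ^ (6 : ℝ) = (M : ℝ) ^ s * (M : ℝ) ^ (5 * l) := by
      rw [← Real.rpow_add hM0R, hsdef]
      congr 1
      ring
    rw [e1] at hk2
    have hMp : 0 < (M : ℝ) ^ (5 * l) := Real.rpow_pos_of_pos hM0R _
    have e2 : (M : ℝ) ^ s * (g : ℝ) ^ l ≤ C ^ 6 * K ^ l * (condW W : ℝ) ^ (6 * l) := by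
      refine le_of_mul_le_mul_right ?_ hMp
      calc (M : ℝ) ^ s * (g : ℝ) ^ l * (M : ℝ) ^ (5 * l) =
          (M : ℝ) ^ s * (M : ℝ) ^ (5 * l) * (g : ℝ) ^ l := by ring
        _ ≤ _ := hk2
        _ = _ := by ring
    refine le_trans ?_ e2
    rw [Real.mul_rpow hg0R.le hM0R.le, mul_comm]
    gcongr
    rw [hsdef]; linarith
  have hk4 : (g : ℝ) * M ≤ B * (condW W : ℝ) ^ (6 * l / s) := by
    have e1 : (g : ℝ) * M = (((g : ℝ) * M) ^ s) ^ (1 / s) := by
      rw [← Real.rpow_mul (by positivity), mul_one_div_cancel hs.ne', Real.rpow_one]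
    rw [e1]
    calc (((g : ℝ) * M) ^ s) ^ (1 / s) ≤
        (C ^ 6 * K ^ l * (condW W : ℝ) ^ (6 * l)) ^ (1 / s) := by gcongr
      _ = B * (condW W : ℝ) ^ (6 * l / s) := by
          rw [Real.mul_rpow (by positivity) (by positivity), ← Real.rpow_mul hN0.le, hB]
          congr 2
          ring
  have hht : ht W ≤ g * M := by
    unfold ht
    refine max_le ?_ ?_
    · have e : ((W.c₄.natAbs ^ 3 : ℕ) : ℝ) = |(W.c₄ : ℝ)| ^ 3 := by
        rw [Nat.cast_pow, Nat.cast_natAbs, Int.cast_abs]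
      rw [← e, hX]
      push_cast
      gcongr
    · have e : ((W.c₆.natAbs ^ 2 : ℕ) : ℝ) = (W.c₆ : ℝ) ^ 2 := by
        rw [Nat.cast_pow, Nat.cast_natAbs, Int.cast_abs, sq_abs]
      rw [← e, hY]
      push_cast
      gcongr
  calc ht W ≤ g * M := hht
    _ ≤ B * (condW W : ℝ) ^ (6 * l / s) := hk4
    _ ≤ (B + K) * (condW W : ℝ) ^ (6 * l / s) := by
        gcongr
        linarith

end Pool.Agent.Q272.TR
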